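import Mathlib

/-!
# Independence of Galois actions on special points with different CM fields
-/

set_option autoImplicit false

namespace Pool.Agent.Run7.h293.EQ

variable {Ω : Type} [Group Ω]

/-- Reciprocity for the action of the subgroup `Φ` of the Galois group `Ω` on a set `X` of special
points: `N x` is the subgroup fixing the (Galois) field of `x`, and `H` is a normal subgroup
of `Ω` contained in `Φ`. -/
structure Recip (c₀ : Ω) (Φ H : Subgroup Ω) (X : Type) [MulAction Φ X] (N : X → Subgroup Ω) :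
    Prop where
  normal : ∀ x, (N x).Normal
  smul : ∀ (g : Φ) (x : X), N (g • x) = N x
  fixed : ∀ (x : X), ∀ c ∈ N x, ∀ h h' : Φ, (h : Ω) ∈ H → (h : Ω) ∈ N x →
    (h' : Ω) = c * h * c⁻¹ → h' • x = h • x
  invert : ∀ (x : X) (c : Ω), c⁻¹ * c₀ ∈ N x → ∀ h h' : Φ, (h : Ω) ∈ H → (h : Ω) ∈ N x →
    (h' : Ω) = c * h * c⁻¹ → h' • x = h⁻¹ • x

section

variable {c₀ : Ω} {Φ H : Subgroup Ω} (hH : H ≤ Φ) {ι : Type} [Fintype ι] [DecidableEq ι]
  {X : ι → Type} [∀ b, MulAction Φ (X b)] {N : ∀ b, X b → Subgroup Ω}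
  (R : ∀ b, Recip c₀ Φ H (X b) (N b)) (x : ∀ b, X b) (J : Subgroup Ω) [J.Normal]

include hH R in
/-- iterated commutators: `g` acts as `h ^ (2 ^ m)` on one coordinate and trivially on the others -/
theorem commutators (hJH : J ≤ H) (hJN : ∀ b, J ≤ N b (x b)) (b : ι)
    (ind : ∀ b', b' ≠ b → ∃ c, c ∈ N b' (x b') ∧ c⁻¹ * c₀ ∈ N b (x b)) (T : Finset ι) (hT : b ∉ T)
    (h : Φ) (hh : (h : Ω) ∈ J) :
    ∃ g : Φ, (g : Ω) ∈ J ∧ (∀ y, N b y = N b (x b) → g • y = h ^ (2 ^ T.card) • y) ∧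
      ∀ b' ∈ T, ∀ (u : Ω) (g' : Φ), (g' : Ω) = u * g * u⁻¹ →
        ∀ y, N b' y = N b' (x b') → g' • y = y := by
  induction T using Finset.induction_on with
  | empty => exact ⟨h, hh, fun y _ => by simp, fun b' hb' => by simp at hb'⟩
  | insert b₁ T hb₁ ih =>
    have hbT : b ∉ T := fun h0 => hT (Finset.mem_insert_of_mem h0)
    have hne : b₁ ≠ b := fun h0 => hT (h0 ▸ Finset.mem_insert_self b₁ T)
    obtain ⟨g, hg, hg1, hg2⟩ := ih hbT
    obtain ⟨c, hc, hc'⟩ := ind b₁ hne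
    have hJΦ : ∀ z ∈ J, z ∈ Φ := fun z hz => hH (hJH hz)
    have hcJ : c * (g : Ω)⁻¹ * c⁻¹ ∈ J := ‹J.Normal›.conj_mem _ (J.inv_mem hg) c
    let k : Φ := ⟨c * (g : Ω)⁻¹ * c⁻¹, hJΦ _ hcJ⟩
    refine ⟨g * k, J.mul_mem hg hcJ, fun y hy => ?_, ?_⟩
    · have h1 : k • y = g • y := by
        have h2 := (R b).invert y c (hy ▸ hc') g⁻¹ k (hJH (J.inv_mem hg))
          (hy ▸ hJN b (J.inv_mem hg)) rfl
        rwa [inv_inv] at h2
      have h3 : N b (g • y) = N b (x b) := by rw [(R b).smul, hy]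
      rw [mul_smul, h1, hg1 _ h3, hg1 _ hy, ← mul_smul, ← pow_add, Finset.card_insert_of_notMem hb₁]
      congr 2
      ring
    · intro b' hb' u g' hg' y hy
      have hug : u * (g : Ω) * u⁻¹ ∈ J := ‹J.Normal›.conj_mem _ hg u
      have huk : u * (k : Ω) * u⁻¹ ∈ J := ‹J.Normal›.conj_mem _ hcJ u
      let g₁ : Φ := ⟨u * g * u⁻¹, hJΦ _ hug⟩
      let k₁ : Φ := ⟨u * k * u⁻¹, hJΦ _ huk⟩
      have h1 : g' = g₁ * k₁ := by
        apply Subtype.ext
        rw [hg']
        change u * (g * k : Ω) * u⁻¹ = (u * g * u⁻¹) * (u * k * u⁻¹)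
        group
      rcases Finset.mem_insert.mp hb' with rfl | hb''
      · -- the new coordinate
        have h2 : k₁ • y = g₁⁻¹ • y := by
          have hcn : u * c * u⁻¹ ∈ N b' y := by
            rw [hy]
            exact ((R b').normal _).conj_mem _ hc u
          refine (R b').fixed y (u * c * u⁻¹) hcn g₁⁻¹ k₁ (hJH (J.inv_mem hug))
            (hy ▸ hJN b' (J.inv_mem hug)) ?_
          change u * (c * (g : Ω)⁻¹ * c⁻¹) * u⁻¹ = u * c * u⁻¹ * (u * g * u⁻¹)⁻¹ * (u * c * u⁻¹)⁻¹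
          group
        rw [h1, mul_smul, h2, smul_inv_smul]
      · have h2 : k₁ • y = y := by
          have h3 : k₁⁻¹ • y = y := by
            refine hg2 b' hb'' (u * c) k₁⁻¹ ?_ y hy
            change (u * (c * (g : Ω)⁻¹ * c⁻¹) * u⁻¹)⁻¹ = u * c * g * (u * c)⁻¹
            group
          conv_lhs => rw [← h3]
          rw [smul_inv_smul]
        have h4 : g₁ • y = y := hg2 b' hb'' u g₁ rfl y hy
        rw [h1, mul_smul, h2, h4]

end

section

variable {Φ : Subgroup Ω}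

/-- `B` is a large subgroup of `Φ` for the special points with field `N`: it contains the powers
with exponent `2 ^ k` of the elements of a normal subgroup of index at most `C` which fix the field -/
def Large (k C : ℕ) (N : Subgroup Ω) (B : Subgroup Φ) : Prop :=
  ∃ H₁ : Subgroup Ω, H₁.Normal ∧ H₁.index ≠ 0 ∧ H₁.index ≤ C ∧
    ∀ h : Φ, (h : Ω) ∈ H₁ → (h : Ω) ∈ N → h ^ 2 ^ k ∈ B

/-- the subgroup generated by the powers -/
def powers (Φ : Subgroup Ω) (J : Subgroup Ω) (m : ℕ) : Subgroup Φ :=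
  Subgroup.closure {d | ∃ h : Φ, (h : Ω) ∈ J ∧ d = h ^ m}

variable {c₀ : Ω} {H : Subgroup Ω} (hH : H ≤ Φ) {ι : Type} [Fintype ι] [DecidableEq ι]
  {X : ι → Type} [∀ b, MulAction Φ (X b)] {N : ∀ b, X b → Subgroup Ω}
  (R : ∀ b, Recip c₀ Φ H (X b) (N b)) (x : ∀ b, X b) (J : Subgroup Ω) [J.Normal]

include hH R in
theorem one_coordinate (hJH : J ≤ H) (hJN : ∀ b, J ≤ N b (x b)) (b : ι)
    (ind : ∀ b', b' ≠ b → ∃ c, c ∈ N b' (x b') ∧ c⁻¹ * c₀ ∈ N b (x b)) (B : Subgroup Φ) (k : ℕ)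
    (hB : ∀ h : Φ, (h : Ω) ∈ J → h ^ 2 ^ k ∈ B)
    (d : Φ) (hd : d ∈ powers Φ J (2 ^ (k + (Fintype.card ι - 1)))) :
    ∃ g ∈ B, (∀ y, N b y = N b (x b) → g • y = d • y) ∧
      ∀ b', b' ≠ b → ∀ y, N b' y = N b' (x b') → g • y = y := by
  induction hd using Subgroup.closure_induction with
  | mem d hd =>
    obtain ⟨h, hh, rfl⟩ := hd
    obtain ⟨g, hg, hg1, hg2⟩ := commutators hH R x J hJH hJN b ind (Finset.univ.erase b)
      (Finset.notMem_erase b _) h hh
    rw [Finset.card_erase_of_mem (Finset.mem_univ b), Finset.card_univ] at hg1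
    refine ⟨g ^ 2 ^ k, hB g hg, fun y hy => ?_, fun b' hb' y hy => ?_⟩
    · have key : ∀ n : ℕ, g ^ n • y = h ^ (n * 2 ^ (Fintype.card ι - 1)) • y := by
        intro n
        induction n with
        | zero => simp
        | succ n ih =>
          have h3 : N b (g ^ n • y) = N b (x b) := by rw [(R b).smul, hy]
          rw [pow_succ', mul_smul, hg1 _ h3, ih, ← mul_smul, ← pow_add]
          congr 2
          ring
      rw [key, ← pow_add]
    · have h1 : g • y = y := hg2 b' (Finset.mem_erase.mpr ⟨hb', Finset.mem_univ _⟩) 1 g (by group) y hy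
      have key : ∀ n : ℕ, g ^ n • y = y := by
        intro n
        induction n with
        | zero => simp
        | succ n ih => rw [pow_succ, mul_smul, h1, ih]
      exact key _
  | one => exact ⟨1, B.one_mem, fun y _ => by simp, fun _ _ y _ => by simp⟩
  | mul d d' _ _ h h' =>
    obtain ⟨g, hg, hg1, hg2⟩ := h
    obtain ⟨g', hg', hg1', hg2'⟩ := h'
    refine ⟨g * g', B.mul_mem hg hg', fun y hy => ?_, fun b' hb' y hy => ?_⟩
    · have h3 : N b (d' • y) = N b (x b) := by rw [(R b).smul, hy]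
      rw [mul_smul, hg1' y hy, hg1 _ h3, mul_smul]
    · rw [mul_smul, hg2' b' hb' y hy, hg2 b' hb' y hy]
  | inv d _ h =>
    obtain ⟨g, hg, hg1, hg2⟩ := h
    refine ⟨g⁻¹, B.inv_mem hg, fun y hy => ?_, fun b' hb' y hy => ?_⟩
    · have h3 : N b (d⁻¹ • y) = N b (x b) := by rw [(R b).smul, hy]
      have h4 := hg1 (d⁻¹ • y) h3
      rw [smul_inv_smul] at h4
      rw [inv_smul_eq_iff]
      exact h4.symm
    · rw [inv_smul_eq_iff]
      exact (hg2 b' hb' y hy).symm

include hH R in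
/-- the orbit of a large subgroup is a union of products of orbits -/
theorem product_orbit (hJH : J ≤ H) (hJN : ∀ b, J ≤ N b (x b))
    (ind : ∀ b b', b' ≠ b → ∃ c, c ∈ N b' (x b') ∧ c⁻¹ * c₀ ∈ N b (x b)) (B : Subgroup Φ) (k : ℕ)
    (hB : ∀ h : Φ, (h : Ω) ∈ J → h ^ 2 ^ k ∈ B) (y z : ∀ b, X b) (hy : ∀ b, N b (y b) = N b (x b))
    (hz : ∀ b, z b ∈ MulAction.orbit (powers Φ J (2 ^ (k + (Fintype.card ι - 1)))) (y b)) :
    z ∈ MulAction.orbit B y := by
  suffices key : ∀ T : Finset ι, (fun b => if b ∈ T then z b else y b) ∈ MulAction.orbit B y by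
    simpa using key Finset.univ
  intro T
  induction T using Finset.induction_on with
  | empty => simp
  | insert b T hb ih =>
    obtain ⟨⟨d, hd⟩, hd2⟩ := hz b
    obtain ⟨g, hg, hg1, hg2⟩ := one_coordinate hH R x J hJH hJN b (ind b) B k hB d hd
    obtain ⟨⟨g₀, hg₀⟩, hg₀2⟩ := ih
    refine ⟨⟨g * g₀, B.mul_mem hg hg₀⟩, ?_⟩
    have hd3 : d • y b = z b := hd2
    have hg₀3 : g₀ • y = fun b => if b ∈ T then z b else y b := hg₀2
    change (g * g₀) • y = _
    rw [mul_smul, hg₀3]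
    have hNz : ∀ b', N b' (if b' ∈ T then z b' else y b') = N b' (x b') := by
      intro b'
      split
      · obtain ⟨⟨d', hd'⟩, hd2'⟩ := hz b'
        have h5 : d' • y b' = z b' := hd2'
        rw [← h5, (R b').smul, hy]
      · exact hy b'
    funext b'
    change g • (if b' ∈ T then z b' else y b') = _
    by_cases hbb : b' = b
    · subst hbb
      rw [if_neg hb, if_pos (Finset.mem_insert_self _ _), hg1 _ (hy _), hd3]
    · rw [hg2 b' hbb _ (hNz b')]
      by_cases hb' : b' ∈ T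
      · rw [if_pos hb', if_pos (Finset.mem_insert_of_mem hb')]
      · rw [if_neg hb', if_neg (by simp [hbb, hb'])]

end

end Pool.Agent.Run7.h293.EQ
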