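import Pool.Agent.Run7.h293.EQ.SW
import Pool.Agent.Run7.h293.EQ.Grp

/-!
# Averages over orbits
-/

set_option autoImplicit false

open Set Filter Topology MeasureTheory

namespace Pool.Agent.Run7.h293.EQ

/-- the average of a function over a finite set -/
noncomputable def avg {X : Type} (O : Set X) (f : X → ℝ) : ℝ := (∑ᶠ z ∈ O, f z) / O.ncard

theorem avg_coe {X : Type} (O : Finset X) (f : X → ℝ) :
    avg (O : Set X) f = (∑ z ∈ O, f z) / O.card := by
  rw [avg, finsum_mem_coe_finset, Set.ncard_coe_finset]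

theorem avg_fin {X : Type} {O : Set X} (hO : O.Finite) (f : X → ℝ) :
    avg O f = (∑ z ∈ hO.toFinset, f z) / hO.toFinset.card := by
  rw [← avg_coe, hO.coe_toFinset]

theorem avg_abs_le {X : Type} {O : Set X} (hO : O.Finite) (f : X → ℝ) {c : ℝ} (hc : 0 ≤ c)
    (h : ∀ z, |f z| ≤ c) : |avg O f| ≤ c := by
  rw [avg_fin hO]
  rcases Nat.eq_zero_or_pos hO.toFinset.card with h0 | h0
  · rw [h0]
    simpa using hc
  · have h1 : (0 : ℝ) < hO.toFinset.card := by exact_mod_cast h0
    rw [abs_div, abs_of_pos h1, div_le_iff₀ h1]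
    calc |∑ z ∈ hO.toFinset, f z| ≤ ∑ z ∈ hO.toFinset, |f z| := Finset.abs_sum_le_sum_abs _ _
      _ ≤ ∑ _z ∈ hO.toFinset, c := Finset.sum_le_sum fun z _ => h z
      _ = c * hO.toFinset.card := by rw [Finset.sum_const, nsmul_eq_mul, mul_comm]

/-- partition of a finite set in a product into boxes -/
theorem boxes {ι : Type} [Fintype ι] [DecidableEq ι] {X : ι → Type} (O : Finset (∀ b, X b))
    (P : ∀ b, X b → Finset (X b)) (f : ∀ b, X b → ℝ) (L ε : ℝ)
    (h1 : ∀ b v, v ∈ P b v) (h2 : ∀ b v w, w ∈ P b v → P b w = P b v)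
    (h3 : ∀ y ∈ O, ∀ z : ∀ b, X b, (∀ b, z b ∈ P b (y b)) → z ∈ O)
    (h4 : ∀ y ∈ O, |(∏ b, (∑ w ∈ P b (y b), f b w) / (P b (y b)).card) - L| ≤ ε) :
    |∑ z ∈ O, ((∏ b, f b (z b)) - L)| ≤ O.card * ε := by
  classical
  let Q : (∀ b, X b) → Finset (∀ b, X b) := fun y => Fintype.piFinset fun b => P b (y b)
  have hQ1 : ∀ y z, z ∈ Q y ↔ ∀ b, z b ∈ P b (y b) := fun y z => Fintype.mem_piFinset
  have hQ2 : ∀ y z, z ∈ Q y → Q z = Q y := by
    intro y z hz
    rw [hQ1] at hz
    have h5 : (fun b => P b (z b)) = fun b => P b (y b) := funext fun b => h2 b _ _ (hz b)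
    change Fintype.piFinset (fun b => P b (z b)) = Fintype.piFinset (fun b => P b (y b))
    rw [h5]
  have hQ3 : ∀ y ∈ O, O.filter (fun z => Q z = Q y) = Q y := by
    intro y hy
    ext z
    rw [Finset.mem_filter]
    constructor
    · rintro ⟨_, h⟩
      rw [← h, hQ1]
      exact fun b => h1 b _
    · intro hz
      exact ⟨h3 y hy z ((hQ1 y z).mp hz), hQ2 y z hz⟩
  have hsum : ∀ F : (∀ b, X b) → ℝ, ∑ q ∈ O.image Q, ∑ z ∈ q, F z = ∑ z ∈ O, F z := by
    intro F
    rw [← Finset.sum_fiberwise_of_maps_to (s := O) (t := O.image Q) (g := Q)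
      (fun y hy => Finset.mem_image_of_mem Q hy) F]
    refine Finset.sum_congr rfl fun q hq => ?_
    obtain ⟨y, hy, rfl⟩ := Finset.mem_image.mp hq
    rw [hQ3 y hy]
  rw [← hsum]
  have hcard : (O.card : ℝ) = ∑ q ∈ O.image Q, (q.card : ℝ) := by
    have h5 := hsum fun _ => 1
    simp only [Finset.sum_const, nsmul_eq_mul, mul_one] at h5
    exact h5.symm
  rw [hcard, Finset.sum_mul]
  refine (Finset.abs_sum_le_sum_abs _ _).trans (Finset.sum_le_sum fun q hq => ?_)
  obtain ⟨y, hy, rfl⟩ := Finset.mem_image.mp hq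
  have hpos : ∀ b, (0 : ℝ) < (P b (y b)).card := fun b => by
    exact_mod_cast Finset.card_pos.mpr ⟨_, h1 b (y b)⟩
  have hc : ((Q y).card : ℝ) = ∏ b, ((P b (y b)).card : ℝ) := by
    change ((Fintype.piFinset fun b => P b (y b)).card : ℝ) = _
    rw [Fintype.card_piFinset]
    push_cast
    rfl
  have h5 : ∑ z ∈ Q y, ((∏ b, f b (z b)) - L) =
      (Q y).card * ((∏ b, (∑ w ∈ P b (y b), f b w) / (P b (y b)).card) - L) := by
    rw [Finset.sum_sub_distrib, Finset.sum_const, nsmul_eq_mul, mul_sub]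
    congr 1
    rw [hc, ← Finset.prod_mul_distrib]
    have h6 : ∀ b, ((P b (y b)).card : ℝ) * ((∑ w ∈ P b (y b), f b w) / (P b (y b)).card) =
        ∑ w ∈ P b (y b), f b w := fun b => mul_div_cancel₀ _ (hpos b).ne'
    rw [Finset.prod_congr rfl fun b _ => h6 b]
    exact (Finset.prod_univ_sum (fun b => P b (y b)) fun b w => f b w).symm
  rw [h5, abs_mul, abs_of_nonneg (Nat.cast_nonneg _)]
  exact mul_le_mul_of_nonneg_left (h4 y hy) (Nat.cast_nonneg _)

/-- the same with averages over orbits -/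
theorem boxes_orbit {ι : Type} [Fintype ι] [DecidableEq ι] {X : ι → Type} {G : Type} [Group G]
    [∀ b, MulAction G (X b)] (B D : Subgroup G) (y : ∀ b, X b) (f : ∀ b, X b → ℝ) (L ε : ℝ)
    (hB : (MulAction.orbit B y).Finite) (hD : ∀ b (v : X b), (MulAction.orbit D v).Finite)
    (h3 : ∀ z ∈ MulAction.orbit B y, ∀ w : ∀ b, X b, (∀ b, w b ∈ MulAction.orbit D (z b)) →
      w ∈ MulAction.orbit B z)
    (h4 : ∀ z ∈ MulAction.orbit B y,
      |(∏ b, avg (MulAction.orbit D (z b)) (f b)) - L| ≤ ε) :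
    |avg (MulAction.orbit B y) (fun z => ∏ b, f b (z b)) - L| ≤ ε := by
  have h0 : (0 : ℝ) < hB.toFinset.card := by
    have h6 : hB.toFinset.Nonempty := ⟨y, by rw [hB.mem_toFinset]; exact MulAction.mem_orbit_self y⟩
    exact_mod_cast h6.card_pos
  have h5 := boxes hB.toFinset (fun b v => (hD b v).toFinset) f L ε
    (fun b v => by rw [(hD b v).mem_toFinset]; exact MulAction.mem_orbit_self v)
    (fun b v w hw => by
      rw [(hD b v).mem_toFinset] at hw
      have h6 : MulAction.orbit D w = MulAction.orbit D v := MulAction.orbit_eq_iff.mpr hw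
      ext u
      rw [(hD b w).mem_toFinset, (hD b v).mem_toFinset, h6])
    (fun z hz w hw => by
      rw [hB.mem_toFinset] at hz ⊢
      have h6 := h3 z hz w fun b => by
        have h7 := hw b
        rwa [(hD b (z b)).mem_toFinset] at h7
      rwa [MulAction.orbit_eq_iff.mpr hz] at h6)
    (fun z hz => by
      rw [hB.mem_toFinset] at hz
      have h6 := h4 z hz
      simpa only [avg_fin (hD _ _)] using h6)
  rw [avg_fin hB]
  have h6 : (∑ z ∈ hB.toFinset, ∏ b, f b (z b)) / hB.toFinset.card - L =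
      (∑ z ∈ hB.toFinset, ((∏ b, f b (z b)) - L)) / hB.toFinset.card := by
    rw [Finset.sum_sub_distrib, Finset.sum_const, nsmul_eq_mul, sub_div, mul_div_cancel_left₀ _ h0.ne']
  rw [h6, abs_div, abs_of_pos h0, div_le_iff₀ h0, mul_comm]
  exact h5

end Pool.Agent.Run7.h293.EQ
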