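import Pool.Agent.Run7.h293.EQ.Avg

/-!
# Joint equidistribution from equidistribution of suborbits on the factors
-/

set_option autoImplicit false

open Set Filter Topology MeasureTheory

namespace Pool.Agent.Run7.h293.EQ

variable {Ω : Type} [Group Ω]

/-- **Equidistribution of large suborbits** along the sequence `x` of points of `X` (with map `π` to
the space `S` and fields `N`): for all sequences of Galois conjugates `y i` of `x i`
and of subgroups `B i` of `Φ` which are `Large` with fixed parameters, the uniform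
probability measures on the orbits of `y i` under `B i` converge weakly to `m`. -/
def SubOrbits (Φ : Subgroup Ω) {X S : Type} [MulAction Φ X] [TopologicalSpace S]
    [MeasurableSpace S] (m : Measure S) (π : X → S) (N : X → Subgroup Ω) (x : ℕ → X) : Prop :=
  ∀ (k C : ℕ) (B : ℕ → Subgroup Φ) (y : ℕ → X), (∀ i, y i ∈ MulAction.orbit Φ (x i)) →
    (∀ i, Large k C (N (x i)) (B i)) → ∀ f : C(S, ℝ), HasCompactSupport f →
      Tendsto (fun i => avg (MulAction.orbit (B i) (y i)) fun z => f (π z)) atTop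
        (𝓝 (∫ s, f s ∂m))

theorem SubOrbits.uniform {Φ : Subgroup Ω} {X S : Type} [MulAction Φ X] [TopologicalSpace S]
    [MeasurableSpace S] {m : Measure S} {π : X → S} {N : X → Subgroup Ω} {x : ℕ → X}
    (h : SubOrbits Φ m π N x) (k C : ℕ) (B : ℕ → Subgroup Φ) (hB : ∀ i, Large k C (N (x i)) (B i))
    (f : C(S, ℝ)) (hf : HasCompactSupport f) {ε : ℝ} (hε : 0 < ε) :
    ∀ᶠ i in atTop, ∀ y ∈ MulAction.orbit Φ (x i),
      |avg (MulAction.orbit (B i) y) (fun z => f (π z)) - ∫ s, f s ∂m| < ε := by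
  classical
  let bad : ℕ → X → Prop := fun i y => y ∈ MulAction.orbit Φ (x i) ∧
    ¬ |avg (MulAction.orbit (B i) y) (fun z => f (π z)) - ∫ s, f s ∂m| < ε
  let y : ℕ → X := fun i => if h : ∃ v, bad i v then h.choose else x i
  have hy : ∀ i, y i ∈ MulAction.orbit Φ (x i) := by
    intro i
    by_cases h0 : ∃ v, bad i v
    · simp only [y, dif_pos h0]
      exact h0.choose_spec.1
    · simp only [y, dif_neg h0]
      exact MulAction.mem_orbit_self _
  have h1 := h k C B y hy hB f hf
  rw [Metric.tendsto_atTop] at h1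
  obtain ⟨n, hn⟩ := h1 ε hε
  filter_upwards [eventually_ge_atTop n] with i hi v hv
  by_contra h2
  have h3 : ∃ v, bad i v := ⟨v, hv, h2⟩
  have h4 := hn i hi
  rw [Real.dist_eq] at h4
  have h5 : y i = h3.choose := dif_pos h3
  rw [h5] at h4
  exact h3.choose_spec.2 h4

/-- the average over a finite orbit as a linear map -/
noncomputable def avgLin {S X : Type} [TopologicalSpace S] {O : Set X} (hO : O.Finite) (π : X → S) :
    C(S, ℝ) →ₗ[ℝ] ℝ where
  toFun f := avg O fun z => f (π z)
  map_add' f g := by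
    rw [avg_fin hO, avg_fin hO, avg_fin hO, ← add_div, ← Finset.sum_add_distrib]
    rfl
  map_smul' a f := by
    rw [avg_fin hO, avg_fin hO, RingHom.id_apply, smul_eq_mul, ← mul_div_assoc, Finset.mul_sum]
    rfl

variable {c₀ : Ω} {Φ H : Subgroup Ω} [H.Normal] (hH : H ≤ Φ) {ι : Type} [Fintype ι] [DecidableEq ι]
  {X : ι → Type} [∀ b, MulAction Φ (X b)] {N : ∀ b, X b → Subgroup Ω}
  {S : ι → Type} [∀ b, TopologicalSpace (S b)] [∀ b, T2Space (S b)]
  [∀ b, LocallyCompactSpace (S b)] [∀ b, SecondCountableTopology (S b)]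
  [∀ b, MeasurableSpace (S b)] [∀ b, BorelSpace (S b)] (m : ∀ b, Measure (S b))
  [∀ b, IsProbabilityMeasure (m b)] (π : ∀ b, X b → S b)

include hH in
/-- equidistribution of large suborbits passes to products of points with independent fields -/
theorem product (hi : H.index ≠ 0) (R : ∀ b, Recip c₀ Φ H (X b) (N b))
    (hfin : ∀ b (v : X b), (MulAction.orbit Φ v).Finite)
    (d : ℕ) (hd : ∀ b (v : X b), (N b v).index ≠ 0 ∧ (N b v).index ≤ d)
    (x : ℕ → ∀ b, X b)
    (ind : ∀ i b b', b' ≠ b → ∃ c, c ∈ N b' (x i b') ∧ c⁻¹ * c₀ ∈ N b (x i b))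
    (h : ∀ b, SubOrbits Φ (m b) (π b) (N b) fun i => x i b) :
    SubOrbits Φ (Measure.pi m) (fun y b => π b (y b)) (fun y => ⨅ b, N b (y b)) x := by
  intro k C B y hy hB f hf
  choose H₁ hn h0 hC hB' using hB
  have hNn : ∀ i b, (N b (x i b)).Normal := fun i b => (R b).normal _
  let J : ℕ → Subgroup Ω := fun i => (H ⊓ H₁ i) ⊓ ⨅ b, N b (x i b)
  have hinf : ∀ i, (⨅ b, N b (x i b)).Normal := fun i => Subgroup.normal_iInf_normal (hNn i)
  have hJn : ∀ i, (J i).Normal := fun i => by
    have := hn i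
    have := hinf i
    exact Subgroup.normal_inf_normal _ _
  have hJ0 : ∀ i, (J i).index ≠ 0 := fun i =>
    Subgroup.index_inf_ne_zero (Subgroup.index_inf_ne_zero hi (h0 i))
      (Subgroup.index_iInf_ne_zero fun b => (hd b _).1)
  have hJC : ∀ i, (J i).index ≤ (H.index * C) * ∏ _b : ι, d := fun i =>
    (Subgroup.index_inf_le).trans (Nat.mul_le_mul ((Subgroup.index_inf_le).trans
      (Nat.mul_le_mul_left _ (hC i))) ((Subgroup.index_iInf_le _).trans
        (Finset.prod_le_prod' fun b _ => (hd b _).2)))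
  have hJH : ∀ i, J i ≤ H := fun i => inf_le_left.trans inf_le_left
  have hJH₁ : ∀ i, J i ≤ H₁ i := fun i => inf_le_left.trans inf_le_right
  have hJN : ∀ i b, J i ≤ N b (x i b) := fun i b => inf_le_right.trans (iInf_le _ b)
  let D : ℕ → Subgroup Φ := fun i => powers Φ (J i) (2 ^ (k + (Fintype.card ι - 1)))
  have hD : ∀ b i, Large (k + (Fintype.card ι - 1)) ((H.index * C) * ∏ _b : ι, d) (N b (x i b))
      (D i) := fun b i =>
    ⟨J i, hJn i, hJ0 i, hJC i, fun g hg _ => Subgroup.subset_closure ⟨g, hg, rfl⟩⟩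
  have hBJ : ∀ i (g : Φ), (g : Ω) ∈ J i → g ^ 2 ^ k ∈ B i := fun i g hg =>
    hB' i g (hJH₁ i hg) ((Subgroup.mem_inf.mp hg).2)
  -- finiteness
  have hfinD : ∀ i b (v : X b), (MulAction.orbit (D i) v).Finite := fun i b v =>
    (hfin b v).subset fun w ⟨g, hg⟩ => ⟨g.1, hg⟩
  have hfinΦ : ∀ z : ∀ b, X b, (MulAction.orbit Φ z).Finite := fun z => by
    refine (Set.Finite.pi' fun b => hfin b (z b)).subset ?_
    rintro w ⟨g, rfl⟩ b
    exact ⟨g, rfl⟩
  have hfinB : ∀ i, (MulAction.orbit (B i) (y i)).Finite := fun i =>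
    (hfinΦ (y i)).subset fun w ⟨g, hg⟩ => ⟨g.1, hg⟩
  have hzN : ∀ i, ∀ z ∈ MulAction.orbit (B i) (y i), ∀ b, z b ∈ MulAction.orbit Φ (x i b) := by
    rintro i z ⟨g, rfl⟩ b
    obtain ⟨g', hg'⟩ := hy i
    exact ⟨g.1 * g', by
      have h1 : g' • x i b = y i b := congrFun hg' b
      change (g.1 * g') • x i b = g.1 • y i b
      rw [mul_smul, h1]⟩
  have hzN' : ∀ i, ∀ z ∈ MulAction.orbit (B i) (y i), ∀ b, N b (z b) = N b (x i b) := by
    intro i z hz b
    obtain ⟨g, hg⟩ := hzN i z hz b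
    have h1 : g • x i b = z b := hg
    rw [← h1, (R b).smul]
  refine tendsto_of_prod (Measure.pi m) (fun i => avgLin (hfinB i) fun y b => π b (y b))
    (fun i g c hc hg => avg_abs_le (hfinB i) _ hc fun z => hg _) ?_ f hf
  rintro g ⟨u, hu, hgu⟩
  have hg2 : (fun z => g z) = fun z => ∏ b, u b (z b) := funext hgu
  refine ⟨?_, ?_⟩
  · have h1 : Integrable (fun z : ∀ b, S b => ∏ b, u b (z b)) (Measure.pi m) :=
      Integrable.fintype_prod_dep (f := fun b s => u b s) fun b => (u b).continuous.integrable_of_hasCompactSupport (hu b)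
    rwa [← hg2] at h1
  · rw [hg2, integral_fintype_prod_eq_prod (fun b s => u b s)]
    rw [Metric.tendsto_atTop]
    intro ε hε
    have hcont : Continuous fun a : ι → ℝ => ∏ b, a b :=
      continuous_finsetProd _ fun b _ => continuous_apply b
    obtain ⟨δ, hδ, hδ2⟩ := Metric.continuous_iff.mp hcont (fun b => ∫ s, u b s ∂(m b)) (ε / 2)
      (by positivity)
    have h2 : ∀ᶠ i in atTop, ∀ b, ∀ v ∈ MulAction.orbit Φ (x i b),
        |avg (MulAction.orbit (D i) v) (fun z => u b (π b z)) - ∫ s, u b s ∂(m b)| < δ :=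
      eventually_all.mpr fun b => (h b).uniform _ _ D (hD b) (u b) (hu b) hδ
    obtain ⟨n, hn⟩ := eventually_atTop.mp h2
    refine ⟨n, fun i hi => ?_⟩
    have h3 := boxes_orbit (B i) (D i) (y i) (fun b z => u b (π b z))
      (∏ b, ∫ s, u b s ∂(m b)) (ε / 2) (hfinB i) (hfinD i)
      (fun z hz w hw => product_orbit hH R (x i) (J i) (hJH i) (hJN i) (ind i) (B i) k (hBJ i)
        z w (hzN' i z hz) hw)
      (fun z hz => by
        have h4 := hδ2 (fun b => avg (MulAction.orbit (D i) (z b)) fun z => u b (π b z)) (by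
          rw [dist_pi_lt_iff hδ]
          intro b
          rw [Real.dist_eq]
          exact hn i hi b _ (hzN i z hz b))
        rw [Real.dist_eq] at h4
        exact h4.le)
    rw [Real.dist_eq]
    have h5 : (avgLin (hfinB i) fun y b => π b (y b)) g =
        avg (MulAction.orbit (B i) (y i)) fun z => ∏ b, u b (π b (z b)) := by
      change avg _ _ = avg _ _
      congr 1
      funext z
      exact hgu _
    rw [h5]
    linarith

end Pool.Agent.Run7.h293.EQ
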