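import Mathlib

/-!
# Weak convergence on a finite product of locally compact spaces can be tested on products
-/

set_option autoImplicit false

open Set Filter Topology MeasureTheory

namespace Pool.Agent.Run7.h293.EQ

variable {ι : Type} [Fintype ι] {S : ι → Type} [∀ b, TopologicalSpace (S b)]

/-- products of continuous functions with compact support -/
def ProdC (S : ι → Type) [∀ b, TopologicalSpace (S b)] : Set C((∀ b, S b), ℝ) :=
  {g | ∃ u : ∀ b, C(S b, ℝ), (∀ b, HasCompactSupport (u b)) ∧ ∀ z, g z = ∏ b, u b (z b)}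

/-- pull back of functions of one coordinate -/
def coords (S : ι → Type) [∀ b, TopologicalSpace (S b)] : Set C((∀ b, S b), ℝ) :=
  {g | ∃ (b : ι) (u : C(S b, ℝ)), ∀ z, g z = u (z b)}

theorem closure_coords [DecidableEq ι] {g : C((∀ b, S b), ℝ)}
    (hg : g ∈ Submonoid.closure (coords S)) : ∃ u : ∀ b, C(S b, ℝ), ∀ z, g z = ∏ b, u b (z b) := by
  induction hg using Submonoid.closure_induction with
  | mem g hg =>
    obtain ⟨b, u, hu⟩ := hg
    refine ⟨fun b' => if h : b' = b then h ▸ u else 1, fun z => ?_⟩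
    rw [Finset.prod_eq_single b]
    · simp [hu]
    · intro b' _ h
      simp [h]
    · simp
  | one => exact ⟨fun _ => 1, fun z => by simp⟩
  | mul g g' _ _ h h' =>
    obtain ⟨u, hu⟩ := h
    obtain ⟨u', hu'⟩ := h'
    exact ⟨fun b => u b * u' b, fun z => by simp [hu, hu', Finset.prod_mul_distrib]⟩

omit [Fintype ι] in
theorem sep [∀ b, T2Space (S b)] [∀ b, LocallyCompactSpace (S b)] :
    (Algebra.adjoin ℝ (coords S)).SeparatesPoints := by
  intro x y hxy
  obtain ⟨b, hb⟩ : ∃ b, x b ≠ y b := by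
    by_contra h
    simp only [not_exists, not_not] at h
    exact hxy (funext h)
  obtain ⟨u, h1, h2, -, -⟩ := exists_continuous_one_zero_of_isCompact (X := S b)
    (s := {x b}) (t := {y b}) isCompact_singleton isClosed_singleton
    (by simpa using hb)
  refine ⟨_, ⟨⟨fun z => u (z b), by fun_prop⟩, Algebra.subset_adjoin ⟨b, u, fun z => rfl⟩, rfl⟩, ?_⟩
  have h3 : u (x b) = 1 := h1 rfl
  have h4 : u (y b) = 0 := h2 rfl
  change u (x b) ≠ u (y b)
  rw [h3, h4]
  exact one_ne_zero

theorem approx [DecidableEq ι] [∀ b, T2Space (S b)] [∀ b, LocallyCompactSpace (S b)]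
    (f : C((∀ b, S b), ℝ)) (hf : HasCompactSupport f) {ε : ℝ} (hε : 0 < ε) :
    ∃ g ∈ Submodule.span ℝ (ProdC S), ∀ z, |f z - g z| ≤ ε := by
  have hK : ∀ b, IsCompact ((fun z : ∀ b, S b => z b) '' tsupport f) := fun b =>
    hf.isCompact.image (continuous_apply b)
  choose χ h1 _ h3 h4 using fun b => exists_continuous_one_zero_of_isCompact (hK b)
    isClosed_empty (disjoint_empty _)
  have hK' : IsCompact (Set.univ.pi fun b => tsupport (χ b)) :=
    isCompact_univ_pi fun b => (h3 b).isCompact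
  obtain ⟨P, hP, hP2⟩ :=
    ContinuousMap.exists_mem_subalgebra_near_continuous_of_isCompact_of_separatesPoints
      (sep (S := S)) f hK' hε
  let X : C((∀ b, S b), ℝ) := ⟨fun z => ∏ b, χ b (z b), by fun_prop⟩
  have hX1 : ∀ z, 0 ≤ X z ∧ X z ≤ 1 := fun z =>
    ⟨Finset.prod_nonneg fun b _ => (h4 b _).1,
      Finset.prod_le_one (fun b _ => (h4 b _).1) fun b _ => (h4 b _).2⟩
  refine ⟨P * X, ?_, fun z => ?_⟩
  · have h5 : P ∈ Submodule.span ℝ (Submonoid.closure (coords S) : Set C((∀ b, S b), ℝ)) := by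
      rw [← Algebra.adjoin_eq_span]
      exact hP
    clear hP2 hP
    induction h5 using Submodule.span_induction with
    | mem g hg =>
      obtain ⟨u, hu⟩ := closure_coords hg
      refine Submodule.subset_span ⟨fun b => u b * χ b, fun b => (h3 b).mul_left, fun z => ?_⟩
      simp [hu, X, Finset.prod_mul_distrib]
    | zero => rw [zero_mul]; exact Submodule.zero_mem _
    | add g g' _ _ h h' => rw [add_mul]; exact Submodule.add_mem _ h h'
    | smul a g _ h => rw [smul_mul_assoc]; exact Submodule.smul_mem _ _ h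
  · by_cases hz : z ∈ Set.univ.pi fun b => tsupport (χ b)
    · have h6 := hP2 z hz
      rw [Real.norm_eq_abs] at h6
      have h7 : f z = f z * X z := by
        by_cases h8 : z ∈ tsupport f
        · have h9 : X z = 1 := Finset.prod_eq_one fun b _ => h1 b ⟨z, h8, rfl⟩
          rw [h9, mul_one]
        · rw [image_eq_zero_of_notMem_tsupport h8, zero_mul]
      have h10 : f z - (P * X) z = (f z - P z) * X z := by
        rw [ContinuousMap.mul_apply, sub_mul, ← h7]
      rw [h10, abs_mul, abs_of_nonneg (hX1 z).1]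
      have h11 : |f z - P z| ≤ ε := by
        rw [abs_sub_comm]
        exact h6.le
      calc |f z - P z| * X z ≤ ε * 1 := mul_le_mul h11 (hX1 z).2 (hX1 z).1 hε.le
        _ = ε := mul_one _
    · rw [Set.mem_univ_pi, not_forall] at hz
      obtain ⟨b, hb⟩ := hz
      have h6 : χ b (z b) = 0 := image_eq_zero_of_notMem_tsupport hb
      have h7 : X z = 0 := Finset.prod_eq_zero (Finset.mem_univ b) h6
      have h8 : f z = 0 := by
        by_contra h9
        have h10 := h1 b ⟨z, subset_tsupport _ h9, rfl⟩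
        rw [h6] at h10
        exact zero_ne_one h10
      rw [ContinuousMap.mul_apply, h7, h8, mul_zero, sub_zero, abs_zero]
      exact hε.le

/-- it is enough to test weak convergence on products of functions -/
theorem tendsto_of_prod [DecidableEq ι] [∀ b, T2Space (S b)] [∀ b, LocallyCompactSpace (S b)]
    [MeasurableSpace (∀ b, S b)] [OpensMeasurableSpace (∀ b, S b)]
    (μ : Measure (∀ b, S b)) [IsProbabilityMeasure μ] (L : ℕ → C((∀ b, S b), ℝ) →ₗ[ℝ] ℝ)
    (hL : ∀ i f (c : ℝ), 0 ≤ c → (∀ z, |f z| ≤ c) → |L i f| ≤ c)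
    (h : ∀ g ∈ ProdC S, Integrable g μ ∧ Tendsto (fun i => L i g) atTop (𝓝 (∫ z, g z ∂μ)))
    (f : C((∀ b, S b), ℝ)) (hf : HasCompactSupport f) :
    Tendsto (fun i => L i f) atTop (𝓝 (∫ z, f z ∂μ)) := by
  have hs : ∀ g ∈ Submodule.span ℝ (ProdC S),
      Integrable g μ ∧ Tendsto (fun i => L i g) atTop (𝓝 (∫ z, g z ∂μ)) := by
    intro g hg
    induction hg using Submodule.span_induction with
    | mem g hg => exact h g hg
    | zero => exact ⟨integrable_zero _ _ _, by simp⟩
    | add g g' _ _ h h' =>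
      refine ⟨h.1.add h'.1, ?_⟩
      have h3 := h.2.add h'.2
      rw [← integral_add h.1 h'.1] at h3
      simpa using h3
    | smul a g _ h =>
      refine ⟨h.1.smul a, ?_⟩
      have h3 := h.2.const_mul a
      rw [← integral_const_mul] at h3
      simpa using h3
  have hfi : Integrable f μ := f.continuous.integrable_of_hasCompactSupport hf
  rw [Metric.tendsto_atTop]
  intro ε hε
  obtain ⟨g, hg, hg2⟩ := approx f hf (ε := ε / 4) (by positivity)
  obtain ⟨hgi, hgt⟩ := hs g hg
  rw [Metric.tendsto_atTop] at hgt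
  obtain ⟨n, hn⟩ := hgt (ε / 4) (by positivity)
  refine ⟨n, fun i hi => ?_⟩
  have h1 := hn i hi
  rw [Real.dist_eq] at h1 ⊢
  have h2 : |L i (f - g)| ≤ ε / 4 := hL i (f - g) _ (by positivity) fun z => by
    rw [ContinuousMap.sub_apply]; exact hg2 z
  rw [map_sub] at h2
  have h3 : |(∫ z, f z ∂μ) - ∫ z, g z ∂μ| ≤ ε / 4 := by
    rw [← integral_sub hfi hgi]
    have h4 := norm_integral_le_of_norm_le_const (μ := μ) (f := fun z => f z - g z) (C := ε / 4)
      (Filter.Eventually.of_forall fun z => by rw [Real.norm_eq_abs]; exact hg2 z)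
    simpa using h4
  have h5 : L i f - ∫ z, f z ∂μ = (L i f - L i g) + (L i g - ∫ z, g z ∂μ) -
      ((∫ z, f z ∂μ) - ∫ z, g z ∂μ) := by ring
  rw [h5]
  calc |(L i f - L i g) + (L i g - ∫ z, g z ∂μ) - ((∫ z, f z ∂μ) - ∫ z, g z ∂μ)|
      ≤ |(L i f - L i g) + (L i g - ∫ z, g z ∂μ)| + |(∫ z, f z ∂μ) - ∫ z, g z ∂μ| := abs_sub _ _
    _ ≤ |L i f - L i g| + |L i g - ∫ z, g z ∂μ| + |(∫ z, f z ∂μ) - ∫ z, g z ∂μ| := by
        gcongr
        exact abs_add_le _ _
    _ < ε := by linarith

end Pool.Agent.Run7.h293.EQ
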