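import Pool.Agent.Run7.h293.EQ.Prod

/-!
# Special points on Shimura varieties: the Galois action given by Shimura's reciprocity law
-/

set_option autoImplicit false

open Set Filter Topology MeasureTheory Pointwise

namespace Pool.Agent.Run7.h293.EQ

/-- the Galois group of an algebraic closure `L` of `k` (for Shimura varieties `k = ℚ`) -/
abbrev GQ (k L : Type) [Field k] [Field L] [Algebra k L] : Type := L ≃ₐ[k] L

/-- The special points of a connected component `S` of a Shimura variety, defined over the number
field `E`, with the action of the Galois group of `E`.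

* `c₀` is a complex conjugation;
* `pts` is the set of the special points of `S`;
* `field x` is a number field, Galois over `ℚ`, containing the reflex field of the special point `x`
  (for modular curves: the imaginary quadratic field of complex multiplication);
* `E₁` is a number field which depends only on `S`, Galois over `ℚ` (it contains `E` and a ray
  class field which depends on the level);
* `subvarieties`: the proper special subvarieties of `S`. -/
structure SpecialPoints {k L : Type} [Field k] [Field L] [Algebra k L] (c₀ : GQ k L)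
    (E E₁ : IntermediateField k L) (S : Type) where
  pts : Set S
  subvarieties : Set (Set S)
  act : MulAction E.fixingSubgroup pts
  field : pts → IntermediateField k L
  galois : ∀ x, IsGalois k (field x)
  d : ℕ
  degree : ∀ x, FiniteDimensional k (field x) ∧ Module.finrank k (field x) ≤ d
  /-- conjugate points have the same field -/
  field_smul : ∀ (g : E.fixingSubgroup) (x : pts), field (g • x) = field x
  /-- special points are algebraic -/
  algebraic : ∀ x : pts, (MulAction.orbit E.fixingSubgroup x).Finite
  /-- reciprocity: `h`, which fixes `E₁` and the field of `x`, acts on `x` through its image in the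
  Galois group of the largest abelian extension of `field x` -/
  reciprocity : ∀ (x : pts), ∀ c ∈ (field x).fixingSubgroup, ∀ h h' : E.fixingSubgroup,
    (h : GQ k L) ∈ E₁.fixingSubgroup → (h : GQ k L) ∈ (field x).fixingSubgroup →
      (h' : GQ k L) = c * h * c⁻¹ → h' • x = h • x
  /-- if `c` acts on the field of `x` as complex conjugation, `c h c⁻¹` acts on `x` as `h⁻¹` -/
  conjugation : ∀ (x : pts) (c : GQ k L), (∀ z ∈ field x, c z = c₀ z) → ∀ h h' : E.fixingSubgroup,
    (h : GQ k L) ∈ E₁.fixingSubgroup → (h : GQ k L) ∈ (field x).fixingSubgroup →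
      (h' : GQ k L) = c * h * c⁻¹ → h' • x = h⁻¹ • x

attribute [instance] SpecialPoints.act

namespace SpecialPoints

variable {k L : Type} [Field k] [Field L] [Algebra k L] {c₀ : GQ k L} {E E₁ : IntermediateField k L} {S : Type}
  (D : SpecialPoints c₀ E E₁ S)

/-- the automorphisms which fix the field of a special point -/
def fixing (x : D.pts) : Subgroup (GQ k L) := (D.field x).fixingSubgroup

/-- equidistribution of the large suborbits of the Galois orbits of the special points `x i` -/
def LargeSuborbits [TopologicalSpace S] [MeasurableSpace S] (m : Measure S) (x : ℕ → D.pts) :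
    Prop :=
  SubOrbits E.fixingSubgroup m (fun y : D.pts => (y : S)) D.fixing x

/-- every proper special subvariety contains only finitely many terms of the sequence -/
def Strict (x : ℕ → D.pts) : Prop := ∀ Z ∈ D.subvarieties, ∀ᶠ i in atTop, (x i : S) ∉ Z

/-- Q1 for `S` in a strong form, for large suborbits of the Galois orbits -/
def StrongQ1 [TopologicalSpace S] [MeasurableSpace S] (m : Measure S) : Prop :=
  ∀ x : ℕ → D.pts, D.Strict x → D.LargeSuborbits m x

theorem recip [CharZero k] [IsAlgClosure k L] : Recip c₀ E.fixingSubgroup E₁.fixingSubgroup D.pts D.fixing where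
  normal x := by
    have := D.galois x
    have := IsAlgClosure.isGalois k L
    exact IsGalois.fixingSubgroup_normal_of_isGalois (D.field x)
  smul g x := by rw [fixing, D.field_smul]; rfl
  fixed x c hc h h' h1 h2 h3 := D.reciprocity x c hc h h' h1 h2 h3
  invert x c hc h h' h1 h2 h3 := by
    refine D.conjugation x c (fun z hz => ?_) h h' h1 h2 h3
    have h4 : (c⁻¹ * c₀) z = z :=
      (IntermediateField.mem_fixingSubgroup_iff _ _).mp hc z hz
    have h5 : c ((c⁻¹ * c₀) z) = c₀ z := by
      rw [← AlgEquiv.mul_apply, mul_inv_cancel_left]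
    rw [← h5, h4]

theorem index_fixing [CharZero k] [IsAlgClosure k L] (x : D.pts) : (D.fixing x).index ≠ 0 ∧ (D.fixing x).index ≤ D.d := by
  have := IsAlgClosure.isGalois k L
  have h1 := IntermediateField.finrank_eq_fixingSubgroup_index L (D.field x)
  obtain ⟨h2, h3⟩ := D.degree x
  have h4 : 0 < Module.finrank k (D.field x) := Module.finrank_pos
  rw [fixing, ← h1]
  exact ⟨h4.ne', h3⟩

end SpecialPoints

/-- if a complex conjugation fixes `E ∩ E'`, some automorphism acts on `E` as complex conjugation and
trivially on `E'` -/
theorem exists_conj {k L : Type} [Field k] [Field L] [Algebra k L] [CharZero k] [IsAlgClosure k L] {c₀ : GQ k L}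
    (E E' : IntermediateField k L) [FiniteDimensional k E] [IsGalois k E] (h : ∀ z ∈ E ⊓ E', c₀ z = z) :
    ∃ c, c ∈ E'.fixingSubgroup ∧ c⁻¹ * c₀ ∈ E.fixingSubgroup := by
  have := IsAlgClosure.isGalois k L
  let A : Subgroup (GQ k L) := E'.fixingSubgroup ⊔ E.fixingSubgroup
  have hopen : IsOpen (A : Set (GQ k L)) :=
    Subgroup.isOpen_mono le_sup_right (IntermediateField.fixingSubgroup_isOpen E)
  have hclosed : IsClosed (A : Set (GQ k L)) := OpenSubgroup.isClosed ⟨A, hopen⟩
  have h1 : IntermediateField.fixedField A ≤ E ⊓ E' := by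
    intro z hz
    rw [IntermediateField.mem_fixedField_iff] at hz
    constructor
    · have h2 : z ∈ IntermediateField.fixedField E.fixingSubgroup := by
        rw [IntermediateField.mem_fixedField_iff]
        exact fun f hf => hz f (Subgroup.mem_sup_right hf)
      rwa [InfiniteGalois.fixedField_fixingSubgroup] at h2
    · have h2 : z ∈ IntermediateField.fixedField E'.fixingSubgroup := by
        rw [IntermediateField.mem_fixedField_iff]
        exact fun f hf => hz f (Subgroup.mem_sup_left hf)
      rwa [InfiniteGalois.fixedField_fixingSubgroup] at h2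
  have h2 : c₀ ∈ A := by
    have h3 := InfiniteGalois.fixingSubgroup_fixedField (⟨A, hclosed⟩ : ClosedSubgroup (GQ k L))
    change (IntermediateField.fixedField A).fixingSubgroup = A at h3
    rw [← h3, IntermediateField.mem_fixingSubgroup_iff]
    exact fun z hz => h z (h1 hz)
  have hn : (E.fixingSubgroup).Normal := IsGalois.fixingSubgroup_normal_of_isGalois E
  have h3 : c₀ ∈ (E'.fixingSubgroup : Set (GQ k L)) * (E.fixingSubgroup : Set (GQ k L)) := by
    rw [← Subgroup.mul_normal]
    exact h2
  obtain ⟨c, hc, e, he, rfl⟩ := h3
  exact ⟨c, hc, by rw [inv_mul_cancel_left]; exact he⟩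

theorem index_field {k L : Type} [Field k] [Field L] [Algebra k L] [CharZero k] [IsAlgClosure k L] (E₁ : IntermediateField k L) [FiniteDimensional k E₁] :
    E₁.fixingSubgroup.index ≠ 0 := by
  have := IsAlgClosure.isGalois k L
  rw [← IntermediateField.finrank_eq_fixingSubgroup_index L E₁]
  exact Module.finrank_pos.ne'

section

variable {k L : Type} [Field k] [Field L] [Algebra k L] [CharZero k] [IsAlgClosure k L] {c₀ : GQ k L}
  {E E₁ : IntermediateField k L} [FiniteDimensional k E₁] [IsGalois k E₁]
  (hE : E ≤ E₁) {ι : Type} [Fintype ι] [DecidableEq ι]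
  {S : ι → Type} [∀ b, TopologicalSpace (S b)] [∀ b, T2Space (S b)]
  [∀ b, LocallyCompactSpace (S b)] [∀ b, SecondCountableTopology (S b)]
  [∀ b, MeasurableSpace (S b)] [∀ b, BorelSpace (S b)] (m : ∀ b, Measure (S b))
  [∀ b, IsProbabilityMeasure (m b)] (D : ∀ b, SpecialPoints c₀ E E₁ (S b))

/-- the fields of the coordinates have pairwise totally real intersections -/
def Independent (D : ∀ b, SpecialPoints c₀ E E₁ (S b)) (x : ∀ b, (D b).pts) : Prop :=
  ∀ b b', b ≠ b' → ∀ z ∈ (D b).field (x b) ⊓ (D b').field (x b'), c₀ z = z

include hE in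
theorem joint (x : ℕ → ∀ b, (D b).pts) (ind : ∀ i, Independent D (x i))
    (h : ∀ b, (D b).LargeSuborbits (m b) fun i => x i b) :
    SubOrbits E.fixingSubgroup (Measure.pi m) (fun (y : ∀ b, (D b).pts) b => (y b : S b))
      (fun y => ⨅ b, (D b).fixing (y b)) x := by
  have := IsAlgClosure.isGalois k L
  have hHn : (E₁.fixingSubgroup).Normal := IsGalois.fixingSubgroup_normal_of_isGalois E₁
  refine product (H := E₁.fixingSubgroup) (IntermediateField.fixingSubgroup_le hE) m
    (fun b (y : (D b).pts) => (y : S b)) (index_field E₁) (fun b => (D b).recip)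
    (fun b => (D b).algebraic) (∑ b, (D b).d) (fun b v => ⟨((D b).index_fixing v).1,
      ((D b).index_fixing v).2.trans (Finset.single_le_sum (f := fun b => (D b).d)
        (fun _ _ => Nat.zero_le _) (Finset.mem_univ b))⟩) x ?_ h
  intro i b b' hb
  have h1 := ((D b).degree (x i b)).1
  have h2 := (D b).galois (x i b)
  exact exists_conj _ _ (ind i b b' hb.symm)

set_option linter.unusedSectionVars false in
include hE in
/-- Galois orbits of independent special points are almost products -/
theorem almost_product (x : ∀ b, (D b).pts) (ind : Independent D x) (z : ∀ b, (D b).pts)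
    (hz : ∀ b, z b ∈ MulAction.orbit (powers E.fixingSubgroup
      (E₁.fixingSubgroup ⊓ ⨅ b, (D b).fixing (x b)) (2 ^ (Fintype.card ι - 1))) (x b)) :
    z ∈ MulAction.orbit E.fixingSubgroup x := by
  have := IsAlgClosure.isGalois k L
  have hHn : (E₁.fixingSubgroup).Normal := IsGalois.fixingSubgroup_normal_of_isGalois E₁
  have hNn : ∀ b, ((D b).fixing (x b)).Normal := fun b => (D b).recip.normal _
  have hinf : (⨅ b, (D b).fixing (x b)).Normal := Subgroup.normal_iInf_normal hNn
  have hJn : (E₁.fixingSubgroup ⊓ ⨅ b, (D b).fixing (x b)).Normal :=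
    Subgroup.normal_inf_normal _ _
  have h1 := product_orbit (IntermediateField.fixingSubgroup_le hE) (fun b => (D b).recip) x
    (E₁.fixingSubgroup ⊓ ⨅ b, (D b).fixing (x b)) inf_le_left
    (fun b => inf_le_right.trans (iInf_le _ b)) (fun b b' hb => by
      have h1 := ((D b).degree (x b)).1
      have h2 := (D b).galois (x b)
      exact exists_conj _ _ (ind b b' hb.symm)) (⊤ : Subgroup E.fixingSubgroup) 0
    (fun _ _ => Subgroup.mem_top _) x z (fun b => rfl) (by rw [Nat.zero_add]; exact hz)
  obtain ⟨g, hg⟩ := h1
  exact ⟨g.1, hg⟩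

/-- the whole Galois orbit is a large suborbit -/
theorem large_top (N : Subgroup (GQ k L)) :
    Large (Φ := E.fixingSubgroup) 0 (E₁.fixingSubgroup.index) N ⊤ :=
  have := IsAlgClosure.isGalois k L
  ⟨E₁.fixingSubgroup, IsGalois.fixingSubgroup_normal_of_isGalois E₁, index_field E₁,
    le_rfl, fun _ _ _ => Subgroup.mem_top _⟩

set_option linter.unusedSectionVars false in
include hE in
/-- in particular the Galois orbits are equidistributed -/
theorem galois_orbits {X T : Type} [MulAction E.fixingSubgroup X] [TopologicalSpace T]
    [MeasurableSpace T] {m : Measure T} {π : X → T} {N : X → Subgroup (GQ k L)} {x : ℕ → X}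
    (h : SubOrbits E.fixingSubgroup m π N x) (f : C(T, ℝ)) (hf : HasCompactSupport f) :
    Tendsto (fun i => avg (MulAction.orbit E.fixingSubgroup (x i)) fun z => f (π z)) atTop
      (𝓝 (∫ s, f s ∂m)) := by
  have h1 := h 0 _ (fun _ => ⊤) x (fun i => MulAction.mem_orbit_self _)
    (fun i => large_top (E₁ := E₁) _) f hf
  have h2 : ∀ i, MulAction.orbit (⊤ : Subgroup E.fixingSubgroup) (x i) =
      MulAction.orbit E.fixingSubgroup (x i) := by
    intro i
    ext y
    constructor
    · rintro ⟨g, hg⟩
      exact ⟨g.1, hg⟩
    · rintro ⟨g, hg⟩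
      exact ⟨⟨g, Subgroup.mem_top g⟩, hg⟩
  simpa only [h2] using h1

end

end Pool.Agent.Run7.h293.EQ
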